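import Pool.Agent.CMG.Stmts

/-!
# Squad CMG (MP_005a41_gt), row KLE: a completely metrizable precompact group is compact
-/

set_option autoImplicit false

open Set Topology Filter
open scoped Pointwise

namespace Pool.Agent.CMG.H35

open Pool.Agent.LSG Pool.Agent.CMG

/-- left Cauchy -/
theorem left_c {H : Type} [Group H] [TopologicalSpace H] [IsTopologicalGroup H]
    (hP : ∀ U ∈ nhds (1 : H), ∃ F : Finset H, (⋃ g ∈ F, g • U) = Set.univ)
    (f : Ultrafilter H) (U : Set H) (hU : U ∈ 𝓝 (1 : H)) :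
    ∃ A ∈ f, ∀ a ∈ A, ∀ b ∈ A, a⁻¹ * b ∈ U := by
  have h1 : Tendsto (fun p : H × H => p.1⁻¹ * p.2) (𝓝 1 ×ˢ 𝓝 1) (𝓝 1) := by
    have h2 : Continuous fun p : H × H => p.1⁻¹ * p.2 := by fun_prop
    have h3 := h2.tendsto (1, 1)
    rw [nhds_prod_eq] at h3
    simpa using h3
  obtain ⟨V, hV, hVV⟩ : ∃ V ∈ 𝓝 (1 : H), ∀ a ∈ V, ∀ b ∈ V, a⁻¹ * b ∈ U := by
    have h4 := h1 hU
    rw [mem_map, mem_prod_self_iff] at h4
    obtain ⟨V, hV, h5⟩ := h4
    exact ⟨V, hV, fun a ha b hb => h5 (mk_mem_prod ha hb)⟩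
  obtain ⟨F, hF⟩ := hP V hV
  have h6 : (⋃ g ∈ (F : Set H), g • V) ∈ f := by
    have : (⋃ g ∈ (F : Set H), g • V) = univ := by simpa using hF
    rw [this]
    exact univ_mem
  rw [Ultrafilter.finite_biUnion_mem_iff F.finite_toSet] at h6
  obtain ⟨g, -, hg⟩ := h6
  refine ⟨g • V, hg, ?_⟩
  rintro _ ⟨a, ha, rfl⟩ _ ⟨b, hb, rfl⟩
  have := hVV a ha b hb
  simpa [smul_eq_mul, mul_assoc] using this

/-- right Cauchy -/
theorem right_c {H : Type} [Group H] [TopologicalSpace H] [IsTopologicalGroup H]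
    (hP : ∀ U ∈ nhds (1 : H), ∃ F : Finset H, (⋃ g ∈ F, g • U) = Set.univ)
    (f : Ultrafilter H) (U : Set H) (hU : U ∈ 𝓝 (1 : H)) :
    ∃ A ∈ f, ∀ a ∈ A, ∀ b ∈ A, a * b⁻¹ ∈ U := by
  obtain ⟨A, hA, h1⟩ := left_c hP (f.map Inv.inv) U hU
  refine ⟨Inv.inv ⁻¹' A, hA, fun a ha b hb => ?_⟩
  have := h1 a⁻¹ ha b⁻¹ hb
  simpa using this

theorem kle : KleStmt := by
  intro H _ _ _ _ hP
  letI := TopologicalSpace.upgradeIsCompletelyMetrizable H
  refine ⟨isCompact_iff_ultrafilter_le_nhds.2 fun f _ => ?_⟩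
  let O : ℝ → Set H := fun ε => {h | ∃ W : Set H, IsOpen W ∧ h ∈ W ∧ ∃ A ∈ f, ∀ a ∈ A, ∀ b ∈ A,
    ∀ w ∈ W, ∀ w' ∈ W, dist (a * w) (b * w') ≤ ε}
  have hO : ∀ ε, IsOpen (O ε) := by
    intro ε
    rw [isOpen_iff_mem_nhds]
    rintro h ⟨W, hW, hh, A, hA, h1⟩
    exact mem_of_superset (hW.mem_nhds hh) fun x hx => ⟨W, hW, hx, A, hA, h1⟩
  have hD : ∀ ε, 0 < ε → Dense (O ε) := by
    intro ε hε
    rw [dense_iff_inter_open]
    rintro W0 hW0 ⟨h0, hh0⟩
    obtain ⟨A0, hA0, hl⟩ := left_c hP f ((fun u => u * h0) ⁻¹' W0) (by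
      have : Continuous fun u : H => u * h0 := by fun_prop
      exact this.continuousAt.preimage_mem_nhds (by simpa using hW0.mem_nhds hh0))
    obtain ⟨aN, haN⟩ := f.neBot.nonempty_of_mem hA0
    set h' := aN * h0 with hh'
    have hc : Continuous fun p : H × H => p.1 * h' * p.2 := by fun_prop
    have h3 := hc.tendsto (1, 1)
    rw [nhds_prod_eq] at h3
    simp only [one_mul, mul_one] at h3
    have h4 := h3 (Metric.ball_mem_nhds h' (half_pos hε))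
    rw [mem_map, mem_prod_self_iff] at h4
    obtain ⟨U3, hU3, h5⟩ := h4
    obtain ⟨A1, hA1, hr⟩ := right_c hP f U3 hU3
    obtain ⟨aM, haM0, haM1⟩ := f.neBot.nonempty_of_mem (inter_mem hA0 hA1)
    have hc2 : Continuous fun w : H => (aM⁻¹ * h')⁻¹ * w := by fun_prop
    have h6 : (fun w : H => (aM⁻¹ * h')⁻¹ * w) ⁻¹' U3 ∈ 𝓝 (aM⁻¹ * h') :=
      hc2.continuousAt.preimage_mem_nhds (by simpa using hU3)
    obtain ⟨W, hW1, hW2, hW3⟩ := mem_nhds_iff.1 h6
    refine ⟨aM⁻¹ * h', ?_, W, hW2, hW3, A1, hA1, ?_⟩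
    · have := hl aM haM0 aN haN
      simpa [hh', mul_assoc] using this
    · have key : ∀ a ∈ A1, ∀ w ∈ W, dist (a * w) h' < ε / 2 := by
        intro a ha w hw
        have e1 : a * aM⁻¹ ∈ U3 := hr a ha aM haM1
        have e2 : (aM⁻¹ * h')⁻¹ * w ∈ U3 := hW1 hw
        have e3 := h5 (mk_mem_prod e1 e2)
        have e4 : a * aM⁻¹ * h' * ((aM⁻¹ * h')⁻¹ * w) = a * w := by group
        simp only [mem_preimage, e4, Metric.mem_ball] at e3
        exact e3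
      intro a ha b hb w hw w' hw'
      have e1 := key a ha w hw
      have e2 := key b hb w' hw'
      have e3 := dist_triangle_right (a * w) (b * w') h'
      linarith
  have hI : Dense (⋂ k : ℕ, O (1 / ((k : ℝ) + 1))) :=
    dense_iInter_of_isOpen_nat (fun k => hO _) fun k => hD _ (by positivity)
  obtain ⟨h, hh⟩ := hI.nonempty
  rw [mem_iInter] at hh
  have hcau : Cauchy ((f.map fun x => x * h : Ultrafilter H) : Filter H) := by
    rw [Metric.cauchy_iff]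
    refine ⟨inferInstance, fun ε hε => ?_⟩
    obtain ⟨k, hk⟩ := exists_nat_one_div_lt hε
    obtain ⟨W, -, hW, A, hA, h1⟩ := hh k
    refine ⟨(fun x => x * h) '' A, ?_, ?_⟩
    · rw [Ultrafilter.coe_map]
      exact image_mem_map hA
    · rintro _ ⟨a, ha, rfl⟩ _ ⟨b, hb, rfl⟩
      exact (h1 a ha b hb h hW h hW).trans_lt hk
  obtain ⟨z, hz⟩ := CompleteSpace.complete hcau
  refine ⟨z * h⁻¹, mem_univ _, ?_⟩
  have h7 : Tendsto (fun x : H => x * h⁻¹) (𝓝 z) (𝓝 (z * h⁻¹)) := by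
    have : Continuous fun x : H => x * h⁻¹ := by fun_prop
    exact this.tendsto z
  have h8 : Tendsto (fun x : H => x * h) f (𝓝 z) := hz
  have h9 := h7.comp h8
  have h10 : ((fun x : H => x * h⁻¹) ∘ fun x : H => x * h) = id := by
    funext x
    simp
  rw [h10] at h9
  exact h9

end Pool.Agent.CMG.H35
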