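import Pool.Agent.CMG.Stmts
import Pool.Agent.Helper1_CMG.ORT

/-!
# Squad CMG (MP_005a41_gt), row SUR: every homomorphism from the dual group is a point
-/

set_option autoImplicit false

open Set Topology Filter MeasureTheory
open scoped Pointwise BigOperators

namespace Pool.Agent.CMG.H35

open Pool.Agent.LSG Pool.Agent.CMG

section

variable {K : Type} [Group K] [TopologicalSpace K] [IsTopologicalGroup K]

/-- the twisted evaluation -/
noncomputable def tw (u : (K →ₜ* Circle) →* Circle) (b : K) : (K →ₜ* Circle) →* ℂ where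
  toFun χ := (((u χ)⁻¹ * χ b : Circle) : ℂ)
  map_one' := by simp
  map_mul' a c := by
    rw [← Circle.coe_mul]
    congr 1
    simp only [map_mul, mul_inv, ContinuousMonoidHom.mul_apply]
    rw [mul_mul_mul_comm]

/-- the twisted evaluation on the group algebra -/
noncomputable def ev (u : (K →ₜ* Circle) →* Circle) (b : K) :
    MonoidAlgebra ℂ (K →ₜ* Circle) →ₐ[ℂ] ℂ :=
  MonoidAlgebra.lift ℂ ℂ (K →ₜ* Circle) (tw u b)

theorem ev_cont (u : (K →ₜ* Circle) →* Circle) (a : MonoidAlgebra ℂ (K →ₜ* Circle)) :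
    Continuous fun b => ev u b a := by
  induction a using MonoidAlgebra.induction_linear with
  | zero => simp [continuous_const]
  | add f g hf hg =>
    simp only [map_add]
    exact hf.add hg
  | single χ c =>
    have h1 : ∀ b, ev u b (MonoidAlgebra.single χ c) = c * (((u χ)⁻¹ * χ b : Circle) : ℂ) := by
      intro b
      unfold ev
      rw [MonoidAlgebra.lift_single]
      rfl
    simp only [h1]
    have h2 : Continuous fun b => ((u χ)⁻¹ * χ b : Circle) := continuous_const.mul χ.continuous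
    exact continuous_const.mul (continuous_subtype_val.comp h2)

theorem ev_int [CompactSpace K] [MeasurableSpace K] [BorelSpace K] (μ : Measure K)
    [μ.IsHaarMeasure] (u : (K →ₜ* Circle) →* Circle) (a : MonoidAlgebra ℂ (K →ₜ* Circle)) :
    ∫ b, ev u b a ∂μ = ∫ b, ev 1 b a ∂μ := by
  induction a using MonoidAlgebra.induction_linear with
  | zero => simp
  | add f g hf hg =>
    simp only [map_add]
    rw [integral_add, integral_add, hf, hg]
    · exact (ev_cont 1 f).integrable_of_hasCompactSupport (HasCompactSupport.of_compactSpace _)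
    · exact (ev_cont 1 g).integrable_of_hasCompactSupport (HasCompactSupport.of_compactSpace _)
    · exact (ev_cont u f).integrable_of_hasCompactSupport (HasCompactSupport.of_compactSpace _)
    · exact (ev_cont u g).integrable_of_hasCompactSupport (HasCompactSupport.of_compactSpace _)
  | single χ c =>
    have h1 : ∀ (u : (K →ₜ* Circle) →* Circle) b, ev u b (MonoidAlgebra.single χ c) =
        c * (((u χ)⁻¹ : Circle) : ℂ) * ((χ b : Circle) : ℂ) := by
      intro u b
      unfold ev
      rw [MonoidAlgebra.lift_single, mul_assoc, ← Circle.coe_mul]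
      rfl
    simp only [h1]
    rw [integral_const_mul, integral_const_mul]
    by_cases hχ : χ = 1
    · subst hχ
      simp
    · have h2 : ∫ x, ((χ x : Circle) : ℂ) ∂μ = 0 := by
        apply Pool.Agent.CMG.H1.ort K μ (fun x => χ x) χ.continuous (fun x y => map_mul χ x y)
        by_contra hc
        push Not at hc
        exact hχ (ContinuousMonoidHom.ext hc)
      rw [h2]
      simp

/-- the product of the `1 + Re` -/
noncomputable def gg (S : Finset (K →ₜ* Circle)) (u : (K →ₜ* Circle) →* Circle) (b : K) : ℝ :=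
  ∏ χ ∈ S, (1 + (((u χ)⁻¹ * χ b : Circle) : ℂ).re)

theorem gg_cont (S : Finset (K →ₜ* Circle)) (u : (K →ₜ* Circle) →* Circle) :
    Continuous (gg S u) := by
  unfold gg
  refine continuous_finset_prod _ fun χ _ => continuous_const.add (Complex.continuous_re.comp ?_)
  exact continuous_subtype_val.comp (continuous_const.mul χ.continuous)

theorem re_le (z : Circle) : (z : ℂ).re ≤ 1 := by
  have := Complex.re_le_norm (z : ℂ)
  rwa [Circle.norm_coe] at this

theorem re_ge (z : Circle) : -1 ≤ (z : ℂ).re := by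
  have := Complex.abs_re_le_norm (z : ℂ)
  rw [Circle.norm_coe] at this
  exact (abs_le.1 this).1

theorem eq_one_of_re (z : Circle) (h : (z : ℂ).re = 1) : z = 1 := by
  apply Circle.ext
  have h1 : Complex.normSq (z : ℂ) = 1 := by
    rw [Complex.normSq_eq_norm_sq, Circle.norm_coe]
    norm_num
  rw [Complex.normSq_apply, h] at h1
  have h2 : (z : ℂ).im = 0 := by nlinarith
  apply Complex.ext
  · simp [h]
  · simp [h2]

theorem gg_nonneg (S : Finset (K →ₜ* Circle)) (u : (K →ₜ* Circle) →* Circle) (b : K) :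
    0 ≤ gg S u b :=
  Finset.prod_nonneg fun χ _ => by linarith [re_ge ((u χ)⁻¹ * χ b)]

theorem gg_le (S : Finset (K →ₜ* Circle)) (u : (K →ₜ* Circle) →* Circle) (b : K) :
    gg S u b ≤ 2 ^ S.card := by
  unfold gg
  rw [← Finset.prod_const]
  refine Finset.prod_le_prod (fun χ _ => ?_) fun χ _ => ?_
  · linarith [re_ge ((u χ)⁻¹ * χ b)]
  · linarith [re_le ((u χ)⁻¹ * χ b)]

theorem gg_lt (S : Finset (K →ₜ* Circle)) (u : (K →ₜ* Circle) →* Circle) (b : K)
    (h : ∃ χ ∈ S, χ b ≠ u χ) : gg S u b < 2 ^ S.card := by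
  classical
  obtain ⟨χ, hχ, hne⟩ := h
  have h1 : (((u χ)⁻¹ * χ b : Circle) : ℂ).re < 1 := by
    refine lt_of_le_of_ne (re_le _) fun he => hne ?_
    have := eq_one_of_re _ he
    rw [inv_mul_eq_one] at this
    exact this.symm
  have h2 : gg S u b = (1 + (((u χ)⁻¹ * χ b : Circle) : ℂ).re) * gg (S.erase χ) u b := by
    unfold gg
    rw [Finset.mul_prod_erase S (fun χ => 1 + (((u χ)⁻¹ * χ b : Circle) : ℂ).re) hχ]
  have h3 := gg_le (S.erase χ) u b
  have h4 := gg_nonneg (S.erase χ) u b
  have h5 : (2 : ℝ) ^ S.card = 2 * 2 ^ (S.erase χ).card := by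
    rw [← pow_succ', Finset.card_erase_add_one hχ]
  rw [h2, h5]
  have h6 : (0 : ℝ) < 2 ^ (S.erase χ).card := by positivity
  have h7 := re_ge ((u χ)⁻¹ * χ b)
  nlinarith

/-- the element of the group algebra -/
noncomputable def aa (S : Finset (K →ₜ* Circle)) : MonoidAlgebra ℂ (K →ₜ* Circle) :=
  ∏ χ ∈ S, (1 + (MonoidAlgebra.single χ (1 / 2) + MonoidAlgebra.single χ⁻¹ (1 / 2)))

theorem ev_aa (S : Finset (K →ₜ* Circle)) (u : (K →ₜ* Circle) →* Circle) (b : K) (n : ℕ) :
    ev u b (aa S ^ n) = ((gg S u b ^ n : ℝ) : ℂ) := by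
  rw [map_pow]
  push_cast
  congr 1
  unfold aa gg
  rw [map_prod]
  push_cast
  refine Finset.prod_congr rfl fun χ _ => ?_
  rw [map_add, map_one, map_add]
  congr 1
  have h1 : ∀ (ψ : K →ₜ* Circle) (c : ℂ), ev u b (MonoidAlgebra.single ψ c) =
      c * (((u ψ)⁻¹ * ψ b : Circle) : ℂ) := by
    intro ψ c
    unfold ev
    rw [MonoidAlgebra.lift_single]
    rfl
  rw [h1, h1]
  have h2 : (u χ⁻¹)⁻¹ * (χ⁻¹ : K →ₜ* Circle) b = ((u χ)⁻¹ * χ b)⁻¹ := by
    rw [map_inv, mul_inv]
    rfl
  rw [h2, Circle.coe_inv_eq_conj, ← mul_add, Complex.add_conj]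
  push_cast
  ring

end

theorem fin_pt {K : Type} [Group K] [TopologicalSpace K] [IsTopologicalGroup K]
    [CompactSpace K] (S : Finset (K →ₜ* Circle)) (u : (K →ₜ* Circle) →* Circle) :
    ∃ b : K, ∀ χ ∈ S, χ b = u χ := by
  classical
  let _ : MeasurableSpace K := borel K
  have _ : BorelSpace K := ⟨rfl⟩
  by_contra hcon
  push Not at hcon
  let μ : Measure K := Measure.haar
  have hint : ∀ (v : (K →ₜ* Circle) →* Circle) (n : ℕ), ∫ b, gg S v b ^ n ∂μ = ∫ b, gg S 1 b ^ n ∂μ := by
    intro v n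
    have h1 := ev_int μ v (aa S ^ n)
    simp only [ev_aa] at h1
    have e1 := integral_complex_ofReal (μ := μ) (f := fun b => gg S v b ^ n)
    have e2 := integral_complex_ofReal (μ := μ) (f := fun b => gg S 1 b ^ n)
    have e3 := (e1.symm.trans h1).trans e2
    exact_mod_cast e3
  obtain ⟨b0, -, hb0⟩ := isCompact_univ.exists_isMaxOn (univ_nonempty (α := K)) (gg_cont S u).continuousOn
  have hc : gg S u b0 < 2 ^ S.card := gg_lt S u b0 (hcon b0)
  obtain ⟨c, hc1, hc2⟩ := exists_between hc
  have hc0 : 0 < c := lt_of_le_of_lt (gg_nonneg S u b0) hc1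
  set m := gg S u b0 with hm
  have hmle : ∀ b, gg S u b ≤ m := fun b => hb0 (mem_univ b)
  have hV : IsOpen {b | c < gg S 1 b} := isOpen_lt continuous_const (gg_cont S 1)
  have h1V : (1 : K) ∈ {b | c < gg S 1 b} := by
    have : gg S 1 (1 : K) = 2 ^ S.card := by
      unfold gg
      simp only [MonoidHom.one_apply, inv_one, map_one, mul_one, Circle.coe_one, Complex.one_re]
      rw [Finset.prod_const]
      norm_num
    show c < gg S 1 1
    rw [this]
    exact hc2
  have hpos : 0 < μ {b | c < gg S 1 b} := hV.measure_pos μ ⟨1, h1V⟩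
  have hI : ∀ (v : (K →ₜ* Circle) →* Circle) (n : ℕ), Integrable (fun b => gg S v b ^ n) μ := fun v n =>
    ((gg_cont S v).pow n).integrable_of_hasCompactSupport (HasCompactSupport.of_compactSpace _)
  have hbound : ∀ n : ℕ, μ.real {b | c < gg S 1 b} ≤ (m / c) ^ n * μ.real univ := by
    intro n
    have e1 : c ^ n * μ.real {b | c < gg S 1 b} ≤ ∫ b, gg S 1 b ^ n ∂μ := by
      calc c ^ n * μ.real {b | c < gg S 1 b} = ∫ b in {b | c < gg S 1 b}, c ^ n ∂μ := by
            rw [setIntegral_const, smul_eq_mul, mul_comm]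
        _ ≤ ∫ b in {b | c < gg S 1 b}, gg S 1 b ^ n ∂μ := by
            apply setIntegral_mono_on (integrable_const _).integrableOn (hI 1 n).integrableOn hV.measurableSet
            intro b hb
            exact pow_le_pow_left₀ hc0.le (le_of_lt hb) n
        _ ≤ ∫ b, gg S 1 b ^ n ∂μ :=
            setIntegral_le_integral (hI 1 n) (Eventually.of_forall fun b => pow_nonneg (gg_nonneg S 1 b) n)
    have e2 : ∫ b, gg S u b ^ n ∂μ ≤ m ^ n * μ.real univ := by
      calc ∫ b, gg S u b ^ n ∂μ ≤ ∫ _b, m ^ n ∂μ :=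
            integral_mono (hI u n) (integrable_const _) fun b =>
              pow_le_pow_left₀ (gg_nonneg S u b) (hmle b) n
        _ = m ^ n * μ.real univ := by
            rw [integral_const, smul_eq_mul, mul_comm]
    rw [hint u n] at e2
    have e3 := e1.trans e2
    have hcn : 0 < c ^ n := pow_pos hc0 n
    rw [div_pow, div_mul_eq_mul_div, le_div_iff₀ hcn, mul_comm]
    exact e3
  have hlim : Tendsto (fun n : ℕ => (m / c) ^ n * μ.real univ) atTop (𝓝 (0 * μ.real univ)) := by
    refine Tendsto.mul_const _ (tendsto_pow_atTop_nhds_zero_of_lt_one ?_ ?_)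
    · exact div_nonneg (gg_nonneg S u b0) hc0.le
    · rw [div_lt_one hc0]
      exact hc1
  have hfin := ge_of_tendsto' hlim hbound
  rw [zero_mul] at hfin
  have : 0 < μ.real {b | c < gg S 1 b} := by
    rw [measureReal_def, ENNReal.toReal_pos_iff]
    exact ⟨hpos, measure_lt_top μ _⟩
  linarith

/-- row SUR, in a stronger form (no metrizability, no commutativity) -/
theorem sur' (K : Type) [Group K] [TopologicalSpace K] [IsTopologicalGroup K]
    [CompactSpace K] (u : (K →ₜ* Circle) →* Circle) : ∃ k : K, ∀ χ : K →ₜ* Circle, χ k = u χ := by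
  have h := isCompact_univ.inter_iInter_nonempty (fun χ : K →ₜ* Circle => {b : K | χ b = u χ})
    (fun χ => isClosed_eq χ.continuous continuous_const) (fun S => by
      obtain ⟨b, hb⟩ := fin_pt S u
      refine ⟨b, mem_univ _, ?_⟩
      simpa using hb)
  obtain ⟨k, -, hk⟩ := h
  refine ⟨k, fun χ => ?_⟩
  rw [mem_iInter] at hk
  exact hk χ

theorem sur : SurStmt := by
  intro K _ _ _ _ _ _ u
  let v : (K →ₜ* Circle) →* Circle :=
    MonoidHom.mk' u.1 u.2
  obtain ⟨k, hk⟩ := sur' K v
  exact ⟨k, fun χ => (hk χ).symm⟩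

end Pool.Agent.CMG.H35
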